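import Pool.Agent.Q301.HC.Crit
set_option autoImplicit false

/-! Appell sequences of real polynomials. -/

namespace Pool.Agent.Q301.HC

open Polynomial Set Filter Topology

/-- the Appell polynomials of a sequence -/
noncomputable def P : (ℕ → ℝ) → ℕ → ℝ[X]
  | c, 0 => C (c 0)
  | c, n + 1 => X * P c n + P (fun k => c (k + 1)) n

lemma P_succ (c : ℕ → ℝ) (n : ℕ) : P c (n + 1) = X * P c n + P (fun k => c (k + 1)) n := rfl

lemma derivative_P (n : ℕ) : ∀ c : ℕ → ℝ,
    derivative (P c (n + 1)) = C ((n : ℝ) + 1) * P c n := by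
  induction n with
  | zero =>
    intro c
    simp [P]
  | succ m ih =>
    intro c
    rw [P_succ c (m + 1), derivative_add, derivative_mul, derivative_X, one_mul, ih c, ih]
    rw [P_succ c m]
    push_cast
    simp only [C_add, C_1]
    ring

lemma P_add (s : ℝ) (n : ℕ) : ∀ c d : ℕ → ℝ,
    P (fun k => c k + s * d k) n = P c n + C s * P d n := by
  induction n with
  | zero => intro c d; simp [P]
  | succ m ih =>
    intro c d
    rw [P_succ, P_succ, P_succ, ih c d, ih (fun k => c (k + 1)) (fun k => d (k + 1))]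
    ring

lemma P_deg (n : ℕ) : ∀ c : ℕ → ℝ, (P c n).natDegree ≤ n ∧ (P c n).coeff n = c 0 := by
  induction n with
  | zero => intro c; simp [P]
  | succ m ih =>
    intro c
    have h1 := ih c
    have h2 := ih (fun k => c (k + 1))
    rw [P_succ]
    refine ⟨?_, ?_⟩
    · refine (natDegree_add_le _ _).trans (max_le ?_ (by omega))
      refine natDegree_mul_le.trans ?_
      have := natDegree_X_le (R := ℝ)
      omega
    · rw [coeff_add, coeff_X_mul, h1.2, coeff_eq_zero_of_natDegree_lt (by omega), add_zero]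

lemma P_ne_zero {c : ℕ → ℝ} (h : c 0 ≠ 0) (n : ℕ) : P c n ≠ 0 := by
  intro h0
  have := (P_deg n c).2
  rw [h0, coeff_zero] at this
  exact h this.symm

/-- points of the unit interval that are critical zeros of the `n`-th polynomial -/
def crit (c : ℕ → ℝ) (n : ℕ) : Set ℝ :=
  {x | x ∈ Ioo (0 : ℝ) 1 ∧ (P c n).eval x = 0 ∧ 0 < (P c (n + 1)).eval x * (P c (n - 1)).eval x}

lemma crit_eq {c : ℕ → ℝ} (h : c 0 ≠ 0) {n : ℕ} (hn : 1 ≤ n) {x : ℝ} (hx : x ∈ crit c n) :
    x ∈ Cr (P c (n + 1)) := by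
  obtain ⟨m, rfl⟩ : ∃ m, n = m + 1 := ⟨n - 1, by omega⟩
  have hne : derivative (P c (m + 1 + 1)) ≠ 0 := by
    rw [derivative_P]
    exact mul_ne_zero (by rw [Ne, C_eq_zero]; positivity) (P_ne_zero h _)
  rw [mem_Cr hne]
  obtain ⟨h1, h2, h3⟩ := hx
  rw [derivative_P, eval_mul, h2, mul_zero]
  refine ⟨rfl, h1, ?_⟩
  rw [derivative_C_mul, derivative_P, eval_mul, eval_mul, eval_C, eval_C]
  rw [show m + 1 - 1 = m by omega] at h3
  have : (P c (m + 1 + 1)).eval x * ((((m + 1 : ℕ) : ℝ) + 1) * (((m : ℝ) + 1) * (P c m).eval x)) =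
    ((((m + 1 : ℕ) : ℝ) + 1) * ((m : ℝ) + 1)) * ((P c (m + 1 + 1)).eval x * (P c m).eval x) := by
    ring
  rw [this]
  positivity

lemma Zr_der {c : ℕ → ℝ} (n : ℕ) :
    Zr (derivative (P c (n + 1))) = Zr (P c n) := by
  unfold Zr
  rw [derivative_P, roots_C_mul _ (by positivity)]

lemma step_count {c : ℕ → ℝ} (h : c 0 ≠ 0) (n : ℕ) :
    (Zr (P c (n + 1))).card + 2 * (Cr (P c (n + 1))).card ≤ (Zr (P c n)).card + 1 := by
  have hne : derivative (P c (n + 1)) ≠ 0 := by
    rw [derivative_P]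
    exact mul_ne_zero (by rw [Ne, C_eq_zero]; positivity) (P_ne_zero h _)
  have := rolle_crit (P c (n + 1)) (P_ne_zero h _) hne
  rwa [Zr_der] at this

lemma sum_count {c : ℕ → ℝ} (h : c 0 ≠ 0) (M L : ℕ) :
    (Zr (P c (M + L))).card + 2 * ∑ n ∈ Finset.range L, (Cr (P c (M + n + 1))).card ≤
      (Zr (P c M)).card + L := by
  induction L with
  | zero => simp
  | succ L ih =>
    rw [Finset.sum_range_succ]
    have := step_count h (M + L)
    rw [← add_assoc M L 1]
    omega

lemma Zr_card (c : ℕ → ℝ) (n : ℕ) : (Zr (P c n)).card ≤ n := by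
  unfold Zr
  refine (Finset.card_filter_le _ _).trans ((Multiset.toFinset_card_le _).trans ?_)
  exact (card_roots' _).trans (P_deg n c).1

lemma total_count {c : ℕ → ℝ} (h : c 0 ≠ 0) (M : ℕ) :
    ∑ n ∈ Finset.range (M + 1), (Cr (P c (M + n + 1))).card ≤ M + 1 := by
  have h1 := sum_count h M (M + 1)
  have h2 := Zr_card c M
  omega

end Pool.Agent.Q301.HC
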