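import Mathlib
set_option autoImplicit false

/-! A one-dimensional area inequality: the measure of an open set on which a function is strictly
decreasing at a definite rate is bounded by the number of its preimages. -/

namespace Pool.Agent.Q301.HC

open Set Filter Topology MeasureTheory
open scoped ENNReal

theorem area_bound {A : Set ℝ} (hA : IsOpen A) {s s' : ℝ → ℝ} {κ : ℝ} (hκ : 0 < κ)
    (hs : ∀ x ∈ A, HasDerivAt s (s' x) x) (hneg : ∀ x ∈ A, s' x ≤ -κ) :
    ∃ g : ℝ → ℝ≥0∞, Measurable g ∧ ENNReal.ofReal κ * volume A ≤ ∫⁻ t, g t ∧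
      ∀ (t : ℝ) (F : Finset ℝ), (∀ x ∈ A, s x = t → x ∈ F) → g t ≤ (F.card : ℝ≥0∞) := by
  classical
  obtain ⟨e, he⟩ := exists_surjective_nat (ℚ × ℚ)
  let J : ℕ → Set ℝ := fun k =>
    {x | x ∈ Ioo ((e k).1 : ℝ) ((e k).2 : ℝ) ∧ Ioo ((e k).1 : ℝ) ((e k).2 : ℝ) ⊆ A}
  have hJo : ∀ k, IsOpen (J k) := fun k => by
    by_cases h : Ioo ((e k).1 : ℝ) ((e k).2 : ℝ) ⊆ A
    · have : J k = Ioo ((e k).1 : ℝ) ((e k).2 : ℝ) := by ext x; simp only [J, mem_setOf_eq, h, and_true]
      rw [this]; exact isOpen_Ioo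
    · have : J k = ∅ := by ext x; simp only [J, mem_setOf_eq, h, and_false, mem_empty_iff_false]
      rw [this]; exact isOpen_empty
  have hJA : ∀ k, J k ⊆ A := fun k x hx => hx.2 hx.1
  have hJU : ⋃ k, J k = A := by
    refine Subset.antisymm (iUnion_subset hJA) fun x hx => ?_
    obtain ⟨l, u, hlu, hsub⟩ := mem_nhds_iff_exists_Ioo_subset.1 (hA.mem_nhds hx)
    obtain ⟨p, hp1, hp2⟩ := exists_rat_btwn hlu.1
    obtain ⟨q, hq1, hq2⟩ := exists_rat_btwn hlu.2
    obtain ⟨k, hk⟩ := he (p, q)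
    refine mem_iUnion.2 ⟨k, ?_, ?_⟩
    · rw [hk]; exact ⟨hp2, hq1⟩
    · rw [hk]; exact fun y hy => hsub ⟨hp1.trans hy.1, hy.2.trans hq2⟩
  have hinj : ∀ k, InjOn s (J k) := by
    intro k x hx y hy hxy
    have hsa : StrictAntiOn s (Ioo ((e k).1 : ℝ) ((e k).2 : ℝ)) := by
      refine strictAntiOn_of_deriv_neg (convex_Ioo _ _)
        (fun z hz => (hs z (hx.2 hz)).continuousAt.continuousWithinAt) fun z hz => ?_
      rw [interior_Ioo] at hz
      rw [(hs z (hx.2 hz)).deriv]
      linarith [hneg z (hx.2 hz)]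
    exact hsa.injOn hx.1 hy.1 hxy
  let B : ℕ → Set ℝ := disjointed J
  have hBJ : ∀ k, B k ⊆ J k := fun k => disjointed_subset J k
  have hBm : ∀ k, MeasurableSet (B k) := fun k =>
    MeasurableSet.disjointed (fun i => (hJo i).measurableSet) k
  have hBU : ⋃ k, B k = A := by rw [← hJU]; exact iUnion_disjointed
  have hBd : Pairwise (Function.onFun Disjoint B) := disjoint_disjointed J
  have hBi : ∀ k, InjOn s (B k) := fun k => (hinj k).mono (hBJ k)
  have hder : ∀ k, ∀ x ∈ B k, HasDerivWithinAt s (s' x) (B k) x := fun k x hx =>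
    (hs x (hJA k (hBJ k hx))).hasDerivWithinAt
  have hIm : ∀ k, MeasurableSet (s '' B k) := fun k =>
    (hBm k).image_of_continuousOn_injOn (fun x hx => (hder k x hx).continuousWithinAt) (hBi k)
  have hvol : ∀ k, ENNReal.ofReal κ * volume (B k) ≤ volume (s '' B k) := by
    intro k
    have h1 := lintegral_image_eq_lintegral_abs_deriv_mul (hBm k) (hder k) (hBi k) (fun _ => 1)
    simp only [mul_one, lintegral_const, MeasurableSet.univ, Measure.restrict_apply, univ_inter,
      one_mul] at h1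
    rw [h1, ← setLIntegral_const]
    refine setLIntegral_mono' (hBm k) fun x hx => ENNReal.ofReal_le_ofReal ?_
    have := hneg x (hJA k (hBJ k hx))
    rw [abs_of_neg (by linarith)]
    linarith
  refine ⟨fun t => ∑' k, (s '' B k).indicator (fun _ => (1 : ℝ≥0∞)) t, ?_, ?_, ?_⟩
  · exact Measurable.ennreal_tsum fun k => measurable_const.indicator (hIm k)
  · rw [lintegral_tsum (fun k => (measurable_const.indicator (hIm k)).aemeasurable)]
    have h2 : ∀ k, ∫⁻ t, (s '' B k).indicator (fun _ => (1 : ℝ≥0∞)) t = volume (s '' B k) := by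
      intro k
      rw [lintegral_indicator (hIm k), setLIntegral_const, one_mul]
    simp_rw [h2]
    rw [← hBU, measure_iUnion hBd hBm, ← ENNReal.tsum_mul_left]
    exact ENNReal.tsum_le_tsum hvol
  · intro t F hF
    show ∑' k, (s '' B k).indicator (fun _ => (1 : ℝ≥0∞)) t ≤ _
    rw [ENNReal.tsum_eq_iSup_sum]
    refine iSup_le fun K => ?_
    have h3 : ∑ k ∈ K, (s '' B k).indicator (fun _ => (1 : ℝ≥0∞)) t =
        ((K.filter (fun k => t ∈ s '' B k)).card : ℝ≥0∞) := by
      rw [Finset.card_filter, Nat.cast_sum]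
      refine Finset.sum_congr rfl fun k _ => ?_
      by_cases h : t ∈ s '' B k
      · rw [indicator_of_mem h, if_pos h, Nat.cast_one]
      · rw [indicator_of_notMem h, if_neg h, Nat.cast_zero]
    rw [h3, Nat.cast_le]
    have h4 : ∀ k : ℕ, ∃ x : ℝ, t ∈ s '' B k → x ∈ B k ∧ s x = t := fun k => by
      by_cases h : t ∈ s '' B k
      · obtain ⟨x, hx, hxt⟩ := h
        exact ⟨x, fun _ => ⟨hx, hxt⟩⟩
      · exact ⟨0, fun h' => absurd h' h⟩
    choose x hx using h4
    refine Finset.card_le_card_of_injOn x (fun k hk => ?_) fun k hk l hl hkl => ?_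
    · have h5 := hx k (Finset.mem_filter.1 hk).2
      exact hF _ (hJA k (hBJ k h5.1)) h5.2
    · by_contra hne
      have h5 := hx k (Finset.mem_filter.1 hk).2
      have h6 := hx l (Finset.mem_filter.1 hl).2
      have h7 : Disjoint (B k) (B l) := hBd hne
      rw [← hkl] at h6
      exact Set.disjoint_left.1 h7 h5.1 h6.1

end Pool.Agent.Q301.HC
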