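import Mathlib
set_option autoImplicit false

/-! Zeros of a real polynomial and critical zeros of its derivative in the unit interval. -/

namespace Pool.Agent.Q301.HC

open Polynomial Set Filter Topology

open Classical in
/-- zeros in the open unit interval -/
noncomputable def Zr (h : ℝ[X]) : Finset ℝ :=
  Finset.filter (fun x : ℝ => x ∈ Ioo (0 : ℝ) 1) h.roots.toFinset

open Classical in
/-- critical zeros of the derivative -/
noncomputable def Cr (h : ℝ[X]) : Finset ℝ :=
  Finset.filter (fun x : ℝ => 0 < h.eval x * (derivative (derivative h)).eval x)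
    (Zr (derivative h))

lemma mem_Zr {h : ℝ[X]} (h0 : h ≠ 0) {x : ℝ} : x ∈ Zr h ↔ h.eval x = 0 ∧ x ∈ Ioo (0 : ℝ) 1 := by
  classical
  unfold Zr
  rw [Finset.mem_filter, Multiset.mem_toFinset, mem_roots h0, IsRoot.def]

lemma mem_Cr {h : ℝ[X]} (h1 : derivative h ≠ 0) {x : ℝ} : x ∈ Cr h ↔
    (derivative h).eval x = 0 ∧ x ∈ Ioo (0 : ℝ) 1 ∧
      0 < h.eval x * (derivative (derivative h)).eval x := by
  classical
  unfold Cr
  rw [Finset.mem_filter, mem_Zr h1, and_assoc]

lemma right_pos (g : ℝ[X]) {r e : ℝ} (hre : r < e) (h0 : g.eval r = 0)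
    (h1 : 0 < (derivative g).eval r) : ∃ x ∈ Ioo r e, 0 < g.eval x := by
  have h2 := (hasDerivAt_iff_tendsto_slope.1 (g.hasDerivAt r)).eventually (lt_mem_nhds h1)
  have h3 : ∀ᶠ x in 𝓝[>] r, 0 < slope (fun x => g.eval x) r x :=
    h2.filter_mono (nhdsWithin_mono _ fun x hx => ne_of_gt hx)
  obtain ⟨x, hx1, hx2⟩ := (h3.and (Ioo_mem_nhdsGT hre)).exists
  refine ⟨x, hx2, ?_⟩
  rw [slope_def_field, h0, sub_zero] at hx1
  exact (div_pos_iff_of_pos_right (by linarith [hx2.1])).1 hx1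

lemma left_neg (g : ℝ[X]) {r b : ℝ} (hbr : b < r) (h0 : g.eval r = 0)
    (h1 : 0 < (derivative g).eval r) : ∃ x ∈ Ioo b r, g.eval x < 0 := by
  have h2 := (hasDerivAt_iff_tendsto_slope.1 (g.hasDerivAt r)).eventually (lt_mem_nhds h1)
  have h3 : ∀ᶠ x in 𝓝[<] r, 0 < slope (fun x => g.eval x) r x :=
    h2.filter_mono (nhdsWithin_mono _ fun x hx => ne_of_lt hx)
  obtain ⟨x, hx1, hx2⟩ := (h3.and (Ioo_mem_nhdsLT hbr)).exists
  refine ⟨x, hx2, ?_⟩
  rw [slope_def_field, h0, sub_zero] at hx1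
  by_contra hn
  push Not at hn
  have : g.eval x / (x - r) ≤ 0 := div_nonpos_of_nonneg_of_nonpos hn (by linarith [hx2.2])
  linarith

lemma const_sign (g : ℝ[X]) {p q x y : ℝ} (hz : ∀ t ∈ Ioo p q, g.eval t ≠ 0)
    (hx : x ∈ Ioo p q) (hy : y ∈ Ioo p q) (hxp : 0 < g.eval x) : 0 < g.eval y := by
  by_contra hn
  push Not at hn
  obtain ⟨t, ht, h0⟩ := isPreconnected_Ioo.intermediate_value hy hx
    (g.continuous.continuousOn (s := Ioo p q)) (show (0 : ℝ) ∈ Icc (g.eval y) (g.eval x) from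
      ⟨hn, hxp.le⟩)
  exact hz t ht h0

/-- to the right of a positive critical point -/
lemma right_gt (h : ℝ[X]) {r e : ℝ} (hre : r < e) (h0 : (derivative h).eval r = 0)
    (h1 : 0 < (derivative (derivative h)).eval r)
    (hz : ∀ t ∈ Ioo r e, (derivative h).eval t ≠ 0) :
    (∀ t ∈ Ioo r e, 0 < (derivative h).eval t) ∧ h.eval r < h.eval e := by
  obtain ⟨x, hx, hxp⟩ := right_pos (derivative h) hre h0 h1
  have hpos : ∀ t ∈ Ioo r e, 0 < (derivative h).eval t := fun t ht => const_sign _ hz hx ht hxp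
  refine ⟨hpos, ?_⟩
  have : StrictMonoOn (fun x => h.eval x) (Icc r e) := by
    refine strictMonoOn_of_deriv_pos (convex_Icc r e) h.continuous.continuousOn fun t ht => ?_
    rw [interior_Icc] at ht
    rw [Polynomial.deriv]; exact hpos t ht
  exact this (left_mem_Icc.2 hre.le) (right_mem_Icc.2 hre.le) hre

/-- to the left of a positive critical point -/
lemma left_gt (h : ℝ[X]) {r b : ℝ} (hbr : b < r) (h0 : (derivative h).eval r = 0)
    (h1 : 0 < (derivative (derivative h)).eval r)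
    (hz : ∀ t ∈ Ioo b r, (derivative h).eval t ≠ 0) : h.eval r < h.eval b := by
  obtain ⟨x, hx, hxp⟩ := left_neg (derivative h) hbr h0 h1
  have hneg : ∀ t ∈ Ioo b r, (derivative h).eval t < 0 := fun t ht => by
    have := const_sign (-derivative h) (p := b) (q := r) (x := x) (y := t)
      (fun t ht => by rw [eval_neg]; exact neg_ne_zero.2 (hz t ht)) hx ht
      (by rw [eval_neg]; linarith)
    rw [eval_neg] at this; linarith
  have : StrictAntiOn (fun x => h.eval x) (Icc b r) := by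
    refine strictAntiOn_of_deriv_neg (convex_Icc b r) h.continuous.continuousOn fun t ht => ?_
    rw [interior_Icc] at ht
    rw [Polynomial.deriv]; exact hneg t ht
  exact this (left_mem_Icc.2 hbr.le) (right_mem_Icc.2 hbr.le) hbr

lemma R_pos (h : ℝ[X]) {r x : ℝ} (hrx : r < x) (h0 : (derivative h).eval r = 0)
    (hp : 0 < h.eval r) (h1 : 0 < (derivative (derivative h)).eval r)
    (hz : ∀ t ∈ Ioo r x, (derivative h).eval t ≠ 0) :
    h.eval x ≠ 0 ∧ ¬ ((derivative h).eval x = 0 ∧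
      0 < h.eval x * (derivative (derivative h)).eval x) := by
  obtain ⟨h2, h3⟩ := right_gt h hrx h0 h1 hz
  refine ⟨by linarith, ?_⟩
  rintro ⟨h4, h5⟩
  have h6 : 0 < (derivative (derivative h)).eval x := (pos_iff_pos_of_mul_pos h5).1 (by linarith)
  obtain ⟨t, ht, htn⟩ := left_neg (derivative h) hrx h4 h6
  linarith [h2 t ht]

lemma R_all (h : ℝ[X]) {r x : ℝ} (hrx : r < x) (h0 : (derivative h).eval r = 0)
    (hp : 0 < h.eval r * (derivative (derivative h)).eval r)
    (hz : ∀ t ∈ Ioo r x, (derivative h).eval t ≠ 0) :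
    h.eval x ≠ 0 ∧ ¬ ((derivative h).eval x = 0 ∧
      0 < h.eval x * (derivative (derivative h)).eval x) := by
  rcases pos_and_pos_or_neg_and_neg_of_mul_pos hp with ⟨h1, h2⟩ | ⟨h1, h2⟩
  · exact R_pos h hrx h0 h1 h2 hz
  · have := R_pos (-h) hrx (by rw [derivative_neg, eval_neg, h0, neg_zero])
      (by rw [eval_neg]; linarith)
      (by rw [derivative_neg, derivative_neg, eval_neg]; linarith)
      (fun t ht => by rw [derivative_neg, eval_neg]; exact neg_ne_zero.2 (hz t ht))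
    simp only [derivative_neg, eval_neg, neg_mul_neg] at this
    refine ⟨fun h3 => this.1 (by rw [h3, neg_zero]), fun h3 => this.2 ⟨?_, h3.2⟩⟩
    rw [h3.1, neg_zero]

lemma L_all (h : ℝ[X]) {r x : ℝ} (hxr : x < r) (h0 : (derivative h).eval r = 0)
    (hp : 0 < h.eval r * (derivative (derivative h)).eval r)
    (hz : ∀ t ∈ Ioo x r, (derivative h).eval t ≠ 0) : h.eval x ≠ 0 := by
  rcases pos_and_pos_or_neg_and_neg_of_mul_pos hp with ⟨h1, h2⟩ | ⟨h1, h2⟩
  · have := left_gt h hxr h0 h2 hz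
    linarith
  · have := left_gt (-h) hxr (by rw [derivative_neg, eval_neg, h0, neg_zero])
      (by rw [derivative_neg, derivative_neg, eval_neg]; linarith)
      (fun t ht => by rw [derivative_neg, eval_neg]; exact neg_ne_zero.2 (hz t ht))
    rw [eval_neg, eval_neg] at this
    linarith

/-- Rolle's theorem with critical zeros. -/
theorem rolle_crit (h : ℝ[X]) (hh : h ≠ 0) (hd : derivative h ≠ 0) :
    (Zr h).card + 2 * (Cr h).card ≤ (Zr (derivative h)).card + 1 := by
  classical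
  obtain ⟨Zd, hZd⟩ : ∃ Zd, Zd = Zr (derivative h) := ⟨_, rfl⟩
  let nge : ℝ → WithTop ℝ := fun y : ℝ => (Finset.filter (fun z : ℝ => y ≤ z) Zd).min
  let ngt : ℝ → WithTop ℝ := fun y : ℝ => (Finset.filter (fun z : ℝ => y < z) Zd).min
  have mZd : ∀ z : ℝ, z ∈ Zd ↔ (derivative h).eval z = 0 ∧ z ∈ Ioo (0 : ℝ) 1 := fun z => by
    rw [hZd]; exact mem_Zr hd
  have nge_le : ∀ y z : ℝ, z ∈ Zd → y ≤ z → nge y ≤ (z : WithTop ℝ) := fun y z hz hyz =>
    Finset.min_le (Finset.mem_filter.2 ⟨hz, hyz⟩)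
  have ngt_le : ∀ y z : ℝ, z ∈ Zd → y < z → ngt y ≤ (z : WithTop ℝ) := fun y z hz hyz =>
    Finset.min_le (Finset.mem_filter.2 ⟨hz, hyz⟩)
  have le_nge : ∀ y : ℝ, ((y : ℝ) : WithTop ℝ) ≤ nge y := fun y =>
    Finset.le_min fun z hz => WithTop.coe_le_coe.2 (Finset.mem_filter.1 hz).2
  have lt_ngt : ∀ y : ℝ, ((y : ℝ) : WithTop ℝ) < ngt y := fun y => by
    rcases (Finset.filter (fun z : ℝ => y < z) Zd).eq_empty_or_nonempty with he | he
    · show ((y : ℝ) : WithTop ℝ) < (Finset.filter (fun z : ℝ => y < z) Zd).min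
      rw [he, Finset.min_empty]; exact WithTop.coe_lt_top y
    · obtain ⟨z, hz⟩ := Finset.min_of_nonempty he
      show ((y : ℝ) : WithTop ℝ) < (Finset.filter (fun z : ℝ => y < z) Zd).min
      rw [hz]
      exact WithTop.coe_lt_coe.2 (Finset.mem_filter.1 (Finset.mem_of_min hz)).2
  have tgt1 : ∀ y : ℝ, nge y ∈ insert (⊤ : WithTop ℝ) (Finset.image (fun z : ℝ => ((z : ℝ) : WithTop ℝ)) Zd) := by
    intro y
    rcases (Finset.filter (fun z : ℝ => y ≤ z) Zd).eq_empty_or_nonempty with he | he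
    · apply Finset.mem_insert.2; left
      show (Finset.filter (fun z : ℝ => y ≤ z) Zd).min = ⊤
      rw [he]; rfl
    · obtain ⟨z, hz⟩ := Finset.min_of_nonempty he
      apply Finset.mem_insert.2; right
      exact Finset.mem_image.2 ⟨z, (Finset.mem_filter.1 (Finset.mem_of_min hz)).1, hz.symm⟩
  have tgt2 : ∀ y : ℝ, ngt y ∈ insert (⊤ : WithTop ℝ) (Finset.image (fun z : ℝ => ((z : ℝ) : WithTop ℝ)) Zd) := by
    intro y
    rcases (Finset.filter (fun z : ℝ => y < z) Zd).eq_empty_or_nonempty with he | he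
    · apply Finset.mem_insert.2; left
      show (Finset.filter (fun z : ℝ => y < z) Zd).min = ⊤
      rw [he]; rfl
    · obtain ⟨z, hz⟩ := Finset.min_of_nonempty he
      apply Finset.mem_insert.2; right
      exact Finset.mem_image.2 ⟨z, (Finset.mem_filter.1 (Finset.mem_of_min hz)).1, hz.symm⟩
  -- no zeros before the next one
  have nz : ∀ r x : ℝ, r ∈ Ioo (0 : ℝ) 1 → x ∈ Ioo (0 : ℝ) 1 → (x : WithTop ℝ) ≤ ngt r →
      ∀ t ∈ Ioo r x, (derivative h).eval t ≠ 0 := by
    intro r x hr hx hle t ht h0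
    have h1 := ngt_le r t ((mZd t).2 ⟨h0, by linarith [hr.1, ht.1], by linarith [hx.2, ht.2]⟩) ht.1
    exact absurd (WithTop.coe_le_coe.1 (hle.trans h1)) (not_le.2 ht.2)
  have nz' : ∀ x r : ℝ, x ∈ Ioo (0 : ℝ) 1 → r ∈ Ioo (0 : ℝ) 1 → (r : WithTop ℝ) ≤ nge x →
      ∀ t ∈ Ioo x r, (derivative h).eval t ≠ 0 := by
    intro x r hx hr hle t ht h0
    have h1 := nge_le x t ((mZd t).2 ⟨h0, by linarith [hx.1, ht.1], by linarith [hr.2, ht.2]⟩)
      ht.1.le
    exact absurd (WithTop.coe_le_coe.1 (hle.trans h1)) (not_le.2 ht.2)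
  have injA : Set.InjOn nge (Zr h : Set ℝ) := by
    have key : ∀ x ∈ Zr h, ∀ y ∈ Zr h, x < y → nge x ≠ nge y := by
      intro x hx y hy hxy he
      rw [mem_Zr hh] at hx hy
      obtain ⟨t, ht, h0⟩ := exists_deriv_eq_zero (f := fun x => h.eval x) hxy
        h.continuous.continuousOn (by rw [hx.1, hy.1])
      rw [Polynomial.deriv] at h0
      have h1 := nge_le x t ((mZd t).2 ⟨h0, by linarith [hx.2.1, ht.1], by linarith [hy.2.2, ht.2]⟩)
        ht.1.le
      have h2 := le_nge y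
      rw [← he] at h2
      exact absurd (WithTop.coe_le_coe.1 (h2.trans h1)) (not_le.2 ht.2)
    intro x hx y hy he
    rcases lt_trichotomy x y with h1 | h1 | h1
    · exact absurd he (key x hx y hy h1)
    · exact h1
    · exact absurd he.symm (key y hy x hx h1)
  have injD : Set.InjOn ngt (Cr h : Set ℝ) := by
    have key : ∀ x ∈ Cr h, ∀ y ∈ Cr h, x < y → ngt x ≠ ngt y := by
      intro x hx y hy hxy he
      rw [mem_Cr hd] at hx hy
      have h1 := ngt_le x y ((mZd y).2 ⟨hy.1, hy.2.1⟩) hxy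
      have h2 := lt_ngt y
      rw [← he] at h2
      exact absurd h1 (not_le.2 h2)
    intro x hx y hy he
    rcases lt_trichotomy x y with h1 | h1 | h1
    · exact absurd he (key x hx y hy h1)
    · exact h1
    · exact absurd he.symm (key y hy x hx h1)
  let A := Finset.image nge (Zr h)
  let B := Finset.image (fun z : ℝ => ((z : ℝ) : WithTop ℝ)) (Cr h)
  let D := Finset.image ngt (Cr h)
  have dAB : Disjoint A B := by
    rw [Finset.disjoint_left]
    intro e he1 he2
    obtain ⟨x, hx, rfl⟩ := Finset.mem_image.1 he1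
    obtain ⟨r, hr, hre⟩ := Finset.mem_image.1 he2
    rw [mem_Zr hh] at hx
    rw [mem_Cr hd] at hr
    have hre' : (r : WithTop ℝ) = nge x := hre
    have h1 : x ≤ r := WithTop.coe_le_coe.1 ((le_nge x).trans (le_of_eq hre'.symm))
    rcases h1.lt_or_eq with h2 | h2
    · exact L_all h h2 hr.1 hr.2.2 (nz' x r hx.2 hr.2.1 (le_of_eq hre')) hx.1
    · rw [← h2, hx.1, zero_mul] at hr
      exact lt_irrefl _ hr.2.2
  have dAD : Disjoint A D := by
    rw [Finset.disjoint_left]
    intro e he1 he2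
    obtain ⟨x, hx, rfl⟩ := Finset.mem_image.1 he1
    obtain ⟨r, hr, hre⟩ := Finset.mem_image.1 he2
    rw [mem_Zr hh] at hx
    rw [mem_Cr hd] at hr
    have hrx : r < x := by
      by_contra hn
      push Not at hn
      have h1 := nge_le x r ((mZd r).2 ⟨hr.1, hr.2.1⟩) hn
      have h2 := lt_ngt r
      rw [hre] at h2
      exact absurd h1 (not_le.2 h2)
    exact (R_all h hrx hr.1 hr.2.2 (nz r x hr.2.1 hx.2 (by rw [hre]; exact le_nge x))).1 hx.1
  have dBD : Disjoint B D := by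
    rw [Finset.disjoint_left]
    intro e he1 he2
    obtain ⟨x, hx, rfl⟩ := Finset.mem_image.1 he1
    obtain ⟨r, hr, hre⟩ := Finset.mem_image.1 he2
    rw [mem_Cr hd] at hx hr
    have hrx : r < x := by
      have h2 := lt_ngt r
      rw [hre] at h2
      exact WithTop.coe_lt_coe.1 h2
    exact (R_all h hrx hr.1 hr.2.2 (nz r x hr.2.1 hx.2.1 (by rw [hre]))).2 ⟨hx.1, hx.2.2⟩
  have cA : A.card = (Zr h).card := Finset.card_image_of_injOn injA
  have cB : B.card = (Cr h).card := Finset.card_image_of_injective _ WithTop.coe_injective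
  have cD : D.card = (Cr h).card := Finset.card_image_of_injOn injD
  have hsub : A ∪ B ∪ D ⊆ insert (⊤ : WithTop ℝ) (Finset.image (fun z : ℝ => ((z : ℝ) : WithTop ℝ)) Zd) := by
    intro e he
    rcases Finset.mem_union.1 he with he | he
    · rcases Finset.mem_union.1 he with he | he
      · obtain ⟨x, -, rfl⟩ := Finset.mem_image.1 he; exact tgt1 x
      · obtain ⟨x, hx, rfl⟩ := Finset.mem_image.1 he
        rw [mem_Cr hd] at hx
        exact Finset.mem_insert.2 (Or.inr (Finset.mem_image.2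
          ⟨x, (mZd x).2 ⟨hx.1, hx.2.1⟩, rfl⟩))
    · obtain ⟨x, -, rfl⟩ := Finset.mem_image.1 he; exact tgt2 x
  have h1 := Finset.card_le_card hsub
  rw [Finset.card_union_of_disjoint (Finset.disjoint_union_left.2 ⟨dAD, dBD⟩),
    Finset.card_union_of_disjoint dAB, cA, cB, cD] at h1
  have h2 : (insert (⊤ : WithTop ℝ) (Finset.image (fun z : ℝ => ((z : ℝ) : WithTop ℝ)) Zd)).card ≤ Zd.card + 1 :=
    (Finset.card_insert_le _ _).trans (by gcongr; exact Finset.card_image_le)
  rw [← hZd]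
  omega

end Pool.Agent.Q301.HC
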