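import Pool.Agent.Q301.HC.Meas
set_option autoImplicit false

/-! The measure estimate: summation. -/

namespace Pool.Agent.Q301.HC

open Polynomial Set Filter Topology MeasureTheory
open scoped ENNReal

lemma lead_ne {c : ℕ → ℝ} {d : ℝ} (hd1 : d * |c 1| < |c 0|) {t : ℝ} (ht : |t| < d) :
    c 0 + t * c 1 ≠ 0 := by
  intro h
  have h1 : |c 0| = |t| * |c 1| := by
    rw [← abs_mul, ← abs_neg (t * c 1)]
    congr 1
    linarith
  have : |t| * |c 1| ≤ d * |c 1| := mul_le_mul_of_nonneg_right ht.le (abs_nonneg _)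
  linarith

lemma block {c : ℕ → ℝ} {e d : ℝ} (hd : 4 * e ≤ d) (hd0 : 0 < d) (hd8 : d ≤ 1 / 8)
    (hd1 : d * |c 1| < |c 0|) {M : ℕ} (hM : 1 ≤ M) :
    ∑ i ∈ Finset.range M, volume (A c e (M + i)) ≤ 27 := by
  classical
  have he : e ≤ 1 / 4 := by linarith
  have hM0 : (0 : ℝ) < M := by exact_mod_cast hM
  have hκ : (0 : ℝ) < (M : ℝ) / 36 := by positivity
  have hg : ∀ i : ℕ, ∃ g : ℝ → ℝ≥0∞, Measurable g ∧
      ENNReal.ofReal ((M : ℝ) / 36) * volume (A c e (M + i)) ≤ ∫⁻ t, g t ∧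
      ∀ (t : ℝ) (F : Finset ℝ), (∀ x ∈ A c e (M + i), sf c (M + i) x = t → x ∈ F) →
        g t ≤ (F.card : ℝ≥0∞) := fun i =>
    area_bound (A_open c e (M + i)) hκ (fun x hx => sf_deriv he hx) fun x hx => by
      refine (sf_deriv_le he hx).trans ?_
      rw [neg_le_neg_iff]
      push_cast
      have : (0 : ℝ) ≤ i := Nat.cast_nonneg i
      gcongr
      linarith
  choose g hgm hgv hgc using hg
  have h1 : ∀ t, ∑ i ∈ Finset.range M, g i t ≤
      (Ioo (-d) d).indicator (fun _ => ((M + 2 : ℕ) : ℝ≥0∞)) t := by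
    intro t
    by_cases ht : t ∈ Ioo (-d) d
    · rw [indicator_of_mem ht]
      have htd : |t| < d := abs_lt.2 ht
      have hne : (fun k => c k + t * c (k + 1)) 0 ≠ 0 := lead_ne hd1 htd
      have h2 : ∀ i, g i t ≤
          ((Cr (P (fun k => c k + t * c (k + 1)) (M + 1 + i + 1))).card : ℝ≥0∞) := by
        intro i
        refine hgc i t _ fun x hx hxt => ?_
        have h3 := sf_crit hd hd8 hx
        rw [hxt] at h3
        have h4 := crit_eq hne (by omega) h3
        rwa [show M + i + 1 + 1 = M + 1 + i + 1 by omega] at h4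
      calc ∑ i ∈ Finset.range M, g i t
          ≤ ∑ i ∈ Finset.range M,
            ((Cr (P (fun k => c k + t * c (k + 1)) (M + 1 + i + 1))).card : ℝ≥0∞) :=
            Finset.sum_le_sum fun i _ => h2 i
        _ ≤ ∑ i ∈ Finset.range (M + 1 + 1),
            ((Cr (P (fun k => c k + t * c (k + 1)) (M + 1 + i + 1))).card : ℝ≥0∞) :=
            Finset.sum_le_sum_of_subset (Finset.range_mono (by omega))
        _ ≤ ((M + 2 : ℕ) : ℝ≥0∞) := by
            rw [← Nat.cast_sum, Nat.cast_le]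
            exact total_count hne (M + 1)
    · rw [indicator_of_notMem ht]
      have h2 : ∀ i, g i t = 0 := by
        intro i
        have := hgc i t ∅ fun x hx hxt => by
          exfalso
          have h3 := sf_lt hd he hx
          rw [hxt] at h3
          exact ht (abs_lt.1 h3)
        simpa using this
      simp [h2]
  have h2 : ∑ i ∈ Finset.range M, ∫⁻ t, g i t ≤ ENNReal.ofReal (2 * d) * ((M + 2 : ℕ) : ℝ≥0∞) := by
    rw [← lintegral_finsetSum _ fun i _ => hgm i]
    refine (lintegral_mono h1).trans ?_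
    rw [lintegral_indicator measurableSet_Ioo, setLIntegral_const, Real.volume_Ioo, mul_comm]
    refine mul_le_mul_left ?_ _
    exact ENNReal.ofReal_le_ofReal (by linarith)
  have h3 : ENNReal.ofReal ((M : ℝ) / 36) * ∑ i ∈ Finset.range M, volume (A c e (M + i)) ≤
      ENNReal.ofReal ((M : ℝ) / 36) * 27 := by
    rw [Finset.mul_sum]
    refine (Finset.sum_le_sum fun i _ => hgv i).trans (h2.trans ?_)
    rw [show ((M + 2 : ℕ) : ℝ≥0∞) = ENNReal.ofReal ((M : ℝ) + 2) by
        rw [← ENNReal.ofReal_natCast]; push_cast; rfl,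
      show (27 : ℝ≥0∞) = ENNReal.ofReal 27 by norm_num,
      ← ENNReal.ofReal_mul (by linarith), ← ENNReal.ofReal_mul (by positivity)]
    refine ENNReal.ofReal_le_ofReal ?_
    have hM1 : (1 : ℝ) ≤ M := by exact_mod_cast hM
    nlinarith
  rwa [ENNReal.mul_le_mul_iff_right (by simpa using hκ) ENNReal.ofReal_ne_top] at h3

/-- the good set of both parameters -/
def E (c : ℕ → ℝ) (e : ℝ) (m : ℕ) : Set (ℝ × ℝ) :=
  {z | z.1 ∈ A c e m ∧ (1 < z.2 ∧ z.2 < 2) ∧ (1 < z.2 ^ m * p c m z.1 ∧ z.2 ^ m * p c m z.1 < 2)}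

lemma E_open (c : ℕ → ℝ) (e : ℝ) (m : ℕ) : IsOpen (E c e m) := by
  have h : Continuous fun z : ℝ × ℝ => z.2 ^ m * p c m z.1 :=
    (continuous_snd.pow m).mul ((p_cont c m).comp continuous_fst)
  refine IsOpen.and ((A_open c e m).preimage continuous_fst) (IsOpen.and ?_ ?_)
  · exact (isOpen_lt continuous_const continuous_snd).and
      (isOpen_lt continuous_snd continuous_const)
  · exact (isOpen_lt continuous_const h).and (isOpen_lt h continuous_const)

lemma slice {u : ℝ} {m : ℕ} (hm : 1 ≤ m) :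
    volume {a : ℝ | (1 < a ∧ a < 2) ∧ (1 < a ^ m * u ∧ a ^ m * u < 2)} ≤
      ENNReal.ofReal (2 / m) := by
  have hm0 : (0 : ℝ) < m := by exact_mod_cast hm
  have key : ∀ a b : ℝ, (1 < a ∧ a < 2) ∧ (1 < a ^ m * u ∧ a ^ m * u < 2) →
      (1 < b ∧ b < 2) ∧ (1 < b ^ m * u ∧ b ^ m * u < 2) → a ≤ b → b - a ≤ 2 / m := by
    intro a b ha hb hab
    have ha0 : 0 < a := by linarith [ha.1.1]
    have hup : 0 < u := by
      have : 0 < a ^ m * u := by linarith [ha.2.1]
      exact pos_of_mul_pos_right this (by positivity)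
    have h1 : b ^ m < 2 * a ^ m := by
      have : b ^ m * u < 2 * a ^ m * u := by linarith [ha.2.1, hb.2.2]
      exact lt_of_mul_lt_mul_right this hup.le
    have h2 : 1 + (m : ℝ) * (b / a - 1) ≤ (b / a) ^ m := by
      have := one_add_mul_le_pow (a := b / a - 1) (by
        have : 0 < b / a := div_pos (by linarith) ha0
        linarith) m
      rwa [add_sub_cancel] at this
    rw [div_pow] at h2
    have h3 : b ^ m / a ^ m < 2 := (div_lt_iff₀ (by positivity)).2 h1
    have h4 : (m : ℝ) * (b / a - 1) < 1 := by linarith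
    have h5 : b / a - 1 < 1 / m := by rwa [lt_div_iff₀ hm0, mul_comm]
    have h6 : b - a < a * (1 / m) := by
      have := mul_lt_mul_of_pos_left h5 ha0
      rwa [mul_sub, mul_one, mul_div_cancel₀ _ ha0.ne'] at this
    have h7 : a * (1 / m) ≤ 2 * (1 / m) := by
      have := ha.1.2.le
      gcongr
    have h8 : (2 : ℝ) * (1 / m) = 2 / m := by ring
    linarith
  refine (Real.volume_le_diam _).trans (Metric.ediam_le fun a ha b hb => ?_)
  rw [edist_dist, Real.dist_eq]
  refine ENNReal.ofReal_le_ofReal ?_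
  rcases le_total a b with h | h
  · rw [abs_of_nonpos (by linarith), neg_sub]; exact key a b ha hb h
  · rw [abs_of_nonneg (by linarith)]; exact key b a hb ha h

lemma vol_E (c : ℕ → ℝ) (e : ℝ) {m : ℕ} (hm : 1 ≤ m) :
    volume (E c e m) ≤ ENNReal.ofReal (2 / m) * volume (A c e m) := by
  rw [Measure.volume_eq_prod, Measure.prod_apply (E_open c e m).measurableSet,
    ← setLIntegral_const, ← lintegral_indicator (A_open c e m).measurableSet]
  refine lintegral_mono fun x => ?_
  show volume (Prod.mk x ⁻¹' E c e m) ≤ (A c e m).indicator (fun _ => ENNReal.ofReal (2 / m)) x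
  by_cases hx : x ∈ A c e m
  · rw [indicator_of_mem hx]
    refine (measure_mono ?_).trans (slice (u := p c m x) hm)
    intro a ha
    exact ⟨ha.2.1, ha.2.2⟩
  · rw [indicator_of_notMem hx]
    have : Prod.mk x ⁻¹' E c e m = ∅ := by
      ext a
      simp only [mem_preimage, mem_empty_iff_false, iff_false]
      exact fun h => hx h.1
    rw [this, measure_empty]

lemma block_E {c : ℕ → ℝ} {e d : ℝ} (hd : 4 * e ≤ d) (hd0 : 0 < d) (hd8 : d ≤ 1 / 8)
    (hd1 : d * |c 1| < |c 0|) {M : ℕ} (hM : 1 ≤ M) :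
    ∑ i ∈ Finset.range M, volume (E c e (M + i)) ≤ ENNReal.ofReal (54 / M) := by
  have hM0 : (0 : ℝ) < M := by exact_mod_cast hM
  calc ∑ i ∈ Finset.range M, volume (E c e (M + i))
      ≤ ∑ i ∈ Finset.range M, ENNReal.ofReal (2 / M) * volume (A c e (M + i)) := by
        refine Finset.sum_le_sum fun i _ => (vol_E c e (by omega)).trans ?_
        refine mul_le_mul_left (ENNReal.ofReal_le_ofReal ?_) _
        push_cast
        have : (0 : ℝ) ≤ i := Nat.cast_nonneg i
        gcongr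
        linarith
    _ = ENNReal.ofReal (2 / M) * ∑ i ∈ Finset.range M, volume (A c e (M + i)) := by
        rw [Finset.mul_sum]
    _ ≤ ENNReal.ofReal (2 / M) * 27 := by
        gcongr; exact block hd hd0 hd8 hd1 hM
    _ = ENNReal.ofReal (54 / M) := by
        rw [show (27 : ℝ≥0∞) = ENNReal.ofReal 27 by norm_num, ← ENNReal.ofReal_mul (by positivity)]
        congr 1
        ring

lemma tail_E {c : ℕ → ℝ} {e d : ℝ} (hd : 4 * e ≤ d) (hd0 : 0 < d) (hd8 : d ≤ 1 / 8)
    (hd1 : d * |c 1| < |c 0|) (K : ℕ) :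
    volume (⋃ m ∈ {m : ℕ | 2 ^ K ≤ m}, E c e m) ≤ ENNReal.ofReal (108 / 2 ^ K) := by
  have hsub : (⋃ m ∈ {m : ℕ | 2 ^ K ≤ m}, E c e m) ⊆
      ⋃ k : ℕ, ⋃ i ∈ Finset.range (2 ^ (K + k)), E c e (2 ^ (K + k) + i) := by
    refine iUnion₂_subset fun m hm => ?_
    have hm' : 2 ^ K ≤ m := hm
    have hm0 : m ≠ 0 := by have := Nat.one_le_two_pow (n := K); omega
    have h1 : 2 ^ Nat.log 2 m ≤ m := Nat.pow_log_le_self 2 hm0
    have h2 : m < 2 ^ (Nat.log 2 m + 1) := Nat.lt_pow_succ_log_self (by norm_num) m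
    have h3 : K ≤ Nat.log 2 m := Nat.le_log_of_pow_le (by norm_num) hm'
    intro z hz
    refine mem_iUnion.2 ⟨Nat.log 2 m - K, mem_iUnion₂.2 ⟨m - 2 ^ Nat.log 2 m, ?_, ?_⟩⟩
    · rw [show K + (Nat.log 2 m - K) = Nat.log 2 m by omega, Finset.mem_range]
      rw [pow_succ] at h2
      omega
    · rw [show K + (Nat.log 2 m - K) = Nat.log 2 m by omega,
        show 2 ^ Nat.log 2 m + (m - 2 ^ Nat.log 2 m) = m by omega]
      exact hz
  refine (measure_mono hsub).trans ((measure_iUnion_le _).trans ?_)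
  have h1 : ∀ k : ℕ, volume (⋃ i ∈ Finset.range (2 ^ (K + k)), E c e (2 ^ (K + k) + i)) ≤
      ENNReal.ofReal (54 / 2 ^ K * (1 / 2) ^ k) := by
    intro k
    refine (measure_biUnion_finset_le _ _).trans
      ((block_E hd hd0 hd8 hd1 Nat.one_le_two_pow).trans (le_of_eq ?_))
    congr 1
    push_cast
    rw [pow_add, one_div, inv_pow]
    field_simp
  refine (ENNReal.tsum_le_tsum h1).trans (le_of_eq ?_)
  rw [← ENNReal.ofReal_tsum_of_nonneg (fun k => by positivity)
    (summable_geometric_two.mul_left _), tsum_mul_left, tsum_geometric_two]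
  congr 1
  ring

end Pool.Agent.Q301.HC
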