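import Pool.Agent.Q301.HC.Est
set_option autoImplicit false
set_option linter.unusedSectionVars false

/-! Hypercyclicity of `a (T + β)` and the window condition. -/

namespace Pool.Agent.Q301.HC

open Polynomial Set Filter Topology MeasureTheory
open scoped ENNReal

/-- pairing of a complex polynomial with a sequence -/
noncomputable def pair (z : ℕ → ℂ) : ℂ[X] →ₗ[ℂ] ℂ :=
  Polynomial.lsum fun j => LinearMap.mulRight ℂ (z j)

lemma pair_monomial (z : ℕ → ℂ) (j : ℕ) (c : ℂ) : pair z (monomial j c) = c * z j := by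
  unfold pair
  rw [lsum_apply, sum_monomial_index _ _ (by simp)]
  simp

lemma pair_X_mul (z : ℕ → ℂ) (q : ℂ[X]) : pair z (X * q) = pair (fun j => z (j + 1)) q := by
  induction q using Polynomial.induction_on' with
  | add p q hp hq => rw [mul_add, map_add, map_add, hp, hq]
  | monomial n a => rw [X_mul_monomial, pair_monomial, pair_monomial]

lemma pair_smul (z : ℕ → ℂ) (t : ℂ) (q : ℂ[X]) :
    pair (fun j => t * z j) q = t * pair z q := by
  induction q using Polynomial.induction_on' with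
  | add p q hp hq => rw [map_add, map_add, hp, hq, mul_add]
  | monomial n a => rw [pair_monomial, pair_monomial]; ring

variable {V : Type*} [AddCommGroup V] [Module ℝ V] [TopologicalSpace V]
  [IsTopologicalAddGroup V] [ContinuousSMul ℝ V]

/-- the orbit functional values -/
noncomputable def zs (R : V →L[ℝ] V) (f : V →L[ℝ] ℝ) (y : V) : ℕ → ℂ :=
  fun j => ((f ((R ^ j) y) : ℝ) : ℂ)

lemma pair_cont (R : V →L[ℝ] V) (f : V →L[ℝ] ℝ) (q : ℂ[X]) :
    Continuous fun y : V => pair (zs R f y) q := by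
  induction q using Polynomial.induction_on' with
  | add p q hp hq =>
    simp only [map_add]
    exact hp.add hq
  | monomial n a =>
    simp only [pair_monomial]
    exact continuous_const.mul (Complex.continuous_ofReal.comp (f.continuous.comp (R ^ n).continuous))

lemma zs_R (R : V →L[ℝ] V) (f : V →L[ℝ] ℝ) (y : V) :
    zs R f (R y) = fun j => zs R f y (j + 1) := by
  funext j
  unfold zs
  rw [pow_succ]
  rfl

lemma zs_smul (R : V →L[ℝ] V) (f : V →L[ℝ] ℝ) (t : ℝ) (y : V) :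
    zs R f (t • y) = fun j => (t : ℂ) * zs R f y j := by
  funext j
  unfold zs
  rw [map_smul, map_smul, smul_eq_mul, Complex.ofReal_mul]

/-- A vector with a dense orbit forces the iterated functionals to be independent. -/
theorem no_relation {R : V →L[ℝ] V} {f : V →L[ℝ] ℝ} {x : V} {a : ℝ} (hfx : f x ≠ 0)
    (hden : Dense (range fun n : ℕ => ((a • R) ^ n) x)) {q : ℂ[X]} (hq : q ≠ 0)
    (h : ∀ y, pair (zs R f y) q = 0) : False := by
  classical
  have hex : ∃ n : ℕ, ∃ q : ℂ[X], q ≠ 0 ∧ q.natDegree = n ∧ ∀ y, pair (zs R f y) q = 0 :=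
    ⟨_, q, hq, rfl, h⟩
  obtain ⟨q, hq, hdeg, h⟩ := Nat.find_spec hex
  have hmin := fun m (hm : m < Nat.find hex) => Nat.find_min hex hm
  have hd0 : q.natDegree ≠ 0 := by
    intro h0
    rw [eq_C_of_natDegree_eq_zero h0] at h hq
    have h1 := h x
    rw [← monomial_zero_left, pair_monomial] at h1
    have h2 : zs R f x 0 = ((f x : ℝ) : ℂ) := rfl
    rw [h2] at h1
    rcases mul_eq_zero.1 h1 with h3 | h3
    · rw [h3, C_0] at hq; exact hq rfl
    · exact hfx (Complex.ofReal_eq_zero.1 h3)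
  obtain ⟨l, hl⟩ := Complex.exists_root (f := q) (natDegree_pos_iff_degree_pos.1 (Nat.pos_of_ne_zero hd0))
  obtain ⟨r, hr⟩ := dvd_iff_isRoot.2 hl
  have hr0 : r ≠ 0 := fun h0 => hq (by rw [hr, h0, mul_zero])
  have hrd : r.natDegree < Nat.find hex := by
    rw [← hdeg, hr, natDegree_mul (X_sub_C_ne_zero l) hr0, natDegree_X_sub_C]
    omega
  obtain ⟨y0, hy0⟩ : ∃ y0, pair (zs R f y0) r ≠ 0 := by
    by_contra hn
    push Not at hn
    exact hmin _ hrd ⟨r, hr0, rfl, hn⟩
  have hR : ∀ y, pair (zs R f (R y)) r = l * pair (zs R f y) r := by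
    intro y
    have h1 := h y
    rw [hr, sub_mul, map_sub, pair_X_mul, ← smul_eq_C_mul, map_smul, smul_eq_mul, sub_eq_zero] at h1
    rw [zs_R, h1]
  let ψ : V → ℝ := fun y => ‖pair (zs R f y) r‖
  have ψc : Continuous ψ := (pair_cont R f r).norm
  have ψs : ∀ (t : ℝ) y, ψ (t • y) = |t| * ψ y := fun t y => by
    show ‖pair (zs R f (t • y)) r‖ = |t| * ‖pair (zs R f y) r‖
    rw [zs_smul, pair_smul, norm_mul, Complex.norm_real, Real.norm_eq_abs]
  have ψR : ∀ y, ψ (R y) = ‖l‖ * ψ y := fun y => by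
    show ‖pair (zs R f (R y)) r‖ = ‖l‖ * ‖pair (zs R f y) r‖
    rw [hR, norm_mul]
  have ψS : ∀ n : ℕ, ψ (((a • R) ^ n) x) = (|a| * ‖l‖) ^ n * ψ x := by
    intro n
    induction n with
    | zero => simp
    | succ n ih =>
      rw [pow_succ', show (((a • R) * (a • R) ^ n) x) = a • (R (((a • R) ^ n) x)) from rfl,
        ψs, ψR, ih]
      ring
  have ψ0 : 0 < ψ y0 := norm_pos_iff.2 hy0
  have ψn : ∀ y, 0 ≤ ψ y := fun y => norm_nonneg _
  have meet : ∀ U : Set ℝ, IsOpen U → (∃ y, ψ y ∈ U) → ∃ n : ℕ, (|a| * ‖l‖) ^ n * ψ x ∈ U := by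
    intro U hU hne
    obtain ⟨y, hyr, hy⟩ := hden.exists_mem_open (hU.preimage ψc) hne
    obtain ⟨n, rfl⟩ := hyr
    refine ⟨n, ?_⟩
    have : ψ (((a • R) ^ n) x) ∈ U := hy
    rwa [ψS] at this
  rcases (ψn x).eq_or_lt with h0 | h0
  · obtain ⟨n, hn⟩ := meet (Ioi 0) isOpen_Ioi ⟨y0, ψ0⟩
    rw [← h0, mul_zero] at hn
    exact lt_irrefl (0 : ℝ) hn
  · rcases le_or_gt (|a| * ‖l‖) 1 with h1 | h1
    · obtain ⟨n, hn⟩ := meet (Ioi (ψ x)) isOpen_Ioi ⟨((2 * ψ x) / ψ y0) • y0, by
        rw [mem_Ioi, ψs, abs_of_pos (by positivity), div_mul_cancel₀ _ ψ0.ne']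
        linarith⟩
      have h2 : (|a| * ‖l‖) ^ n ≤ 1 := pow_le_one₀ (by positivity) h1
      have h3 : (|a| * ‖l‖) ^ n * ψ x ≤ 1 * ψ x := by gcongr
      rw [mem_Ioi] at hn
      linarith
    · obtain ⟨n, hn⟩ := meet (Iio (ψ x)) isOpen_Iio ⟨(0 : ℝ) • y0, by
        rw [mem_Iio, ψs, abs_zero, zero_mul]
        exact h0⟩
      have h2 : 1 ≤ (|a| * ‖l‖) ^ n := one_le_pow₀ h1.le
      have h3 : 1 * ψ x ≤ (|a| * ‖l‖) ^ n * ψ x := by gcongr
      rw [mem_Iio] at hn
      linarith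

lemma eval_orbit (T : V →L[ℝ] V) (f : V →L[ℝ] ℝ) (b : ℝ) (n : ℕ) : ∀ x : V,
    f (((T + b • ContinuousLinearMap.id ℝ V) ^ n) x) = p (fun k => f ((T ^ k) x)) n b := by
  induction n with
  | zero => intro x; simp [p, P]
  | succ n ih =>
    intro x
    have h1 : ((T + b • ContinuousLinearMap.id ℝ V) ^ (n + 1)) x =
        ((T + b • ContinuousLinearMap.id ℝ V) ^ n) (T x) +
          b • ((T + b • ContinuousLinearMap.id ℝ V) ^ n) x := by
      rw [pow_succ]
      show ((T + b • ContinuousLinearMap.id ℝ V) ^ n) (T x + b • x) = _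
      rw [map_add, map_smul]
    rw [h1, map_add, map_smul, ih x, ih (T x)]
    unfold p
    rw [P_succ, eval_add, eval_mul, eval_X, smul_eq_mul, add_comm]
    congr 1

/-- The window is entered at arbitrarily late times. -/
theorem window [T2Space V] [Nontrivial V] {T : V →L[ℝ] V} {f : V →L[ℝ] ℝ} {x : V} {a b e : ℝ}
    (he : 0 < e) (ha : 1 < a ∧ a < 2) (hb : 0 < b ∧ b < 1) (hfx : f x ≠ 0)
    (hden : Dense (range fun n : ℕ => ((a • (T + b • ContinuousLinearMap.id ℝ V)) ^ n) x)) (N : ℕ) :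
    ∃ m, N ≤ m ∧ (b, a) ∈ E (fun k => f ((T ^ k) x)) e m := by
  classical
  set R : V →L[ℝ] V := T + b • ContinuousLinearMap.id ℝ V with hR
  have ha0 : 0 < a := by linarith
  -- surjectivity
  let Φ : V →ₗ[ℝ] (Fin 4 → ℝ) := LinearMap.pi fun j => ((f.comp (R ^ (j : ℕ)) : V →L[ℝ] ℝ) : V →ₗ[ℝ] ℝ)
  have hΦ : ∀ y (j : Fin 4), Φ y j = f ((R ^ (j : ℕ)) y) := fun y j => rfl
  have hsurj : LinearMap.range Φ = ⊤ := by
    by_contra hne
    obtain ⟨g, hg0, hg⟩ := Submodule.exists_le_ker_of_lt_top _ (lt_top_iff_ne_top.2 hne)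
    let w : Fin 4 → ℝ := fun j => g (Pi.single j 1)
    have hgw : ∀ v, g v = ∑ j, v j * w j := by
      intro v
      have : v = ∑ j, v j • (Pi.single j (1 : ℝ) : Fin 4 → ℝ) := by
        funext i
        simp [Finset.sum_apply, Pi.single_apply]
      conv_lhs => rw [this]
      rw [map_sum]
      refine Finset.sum_congr rfl fun j _ => ?_
      rw [map_smul, smul_eq_mul]
    let q : ℂ[X] := ∑ j : Fin 4, monomial (j : ℕ) ((w j : ℝ) : ℂ)
    have hq0 : q ≠ 0 := by
      intro h0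
      apply hg0
      have hw : ∀ i : Fin 4, w i = 0 := by
        intro i
        have h1 : q.coeff (i : ℕ) = ((w i : ℝ) : ℂ) := by
          show (∑ j : Fin 4, monomial (j : ℕ) ((w j : ℝ) : ℂ)).coeff (i : ℕ) = _
          rw [finsetSum_coeff]
          simp only [coeff_monomial, Fin.val_inj]
          rw [Finset.sum_ite_eq' Finset.univ i, if_pos (Finset.mem_univ i)]
        rw [h0, coeff_zero] at h1
        exact Complex.ofReal_eq_zero.1 h1.symm
      ext v
      simp [hgw, hw]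
    refine no_relation hfx hden hq0 fun y => ?_
    show pair (zs R f y) (∑ j : Fin 4, monomial (j : ℕ) ((w j : ℝ) : ℂ)) = 0
    rw [map_sum]
    simp only [pair_monomial]
    have h2 : g (Φ y) = 0 := hg (LinearMap.mem_range_self Φ y)
    rw [hgw] at h2
    have h3 : ((∑ j, Φ y j * w j : ℝ) : ℂ) = 0 := by rw [h2, Complex.ofReal_zero]
    rw [← h3]
    push_cast
    refine Finset.sum_congr rfl fun j _ => ?_
    rw [hΦ, mul_comm]
    rfl
  -- the open window
  let G : Set V := {y | (1 < f ((R ^ 0) y) ∧ f ((R ^ 0) y) < 2) ∧ |f ((R ^ 1) y)| < e ∧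
    (1 < f ((R ^ 2) y) ∧ f ((R ^ 2) y) < 2) ∧ |f ((R ^ 3) y)| < 1}
  have hc : ∀ j : ℕ, Continuous fun y => f ((R ^ j) y) := fun j => f.continuous.comp (R ^ j).continuous
  have hGo : IsOpen G := by
    refine IsOpen.and ((isOpen_lt continuous_const (hc 0)).and (isOpen_lt (hc 0) continuous_const)) ?_
    refine IsOpen.and (isOpen_lt (hc 1).abs continuous_const) ?_
    exact IsOpen.and ((isOpen_lt continuous_const (hc 2)).and (isOpen_lt (hc 2) continuous_const))
      (isOpen_lt (hc 3).abs continuous_const)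
  have hGne : G.Nonempty := by
    obtain ⟨y, hy⟩ := LinearMap.range_eq_top.1 hsurj ![3 / 2, 0, 3 / 2, 0]
    have h0 : f ((R ^ 0) y) = 3 / 2 := by
      have := congrFun hy 0
      rwa [hΦ] at this
    have h1 : f ((R ^ 1) y) = 0 := by
      have := congrFun hy 1
      rwa [hΦ] at this
    have h2 : f ((R ^ 2) y) = 3 / 2 := by
      have := congrFun hy 2
      rwa [hΦ] at this
    have h3 : f ((R ^ 3) y) = 0 := by
      have := congrFun hy 3
      rwa [hΦ] at this
    refine ⟨y, ?_, ?_, ?_, ?_⟩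
    · rw [h0]; norm_num
    · rw [h1, abs_zero]; exact he
    · rw [h2]; norm_num
    · rw [h3, abs_zero]; norm_num
  have : ∀ y : V, (𝓝[≠] y).NeBot := Module.punctured_nhds_neBot ℝ V
  have hden2 := hden.sdiff_finset ((Finset.range N).image fun n => ((a • R) ^ n) x)
  obtain ⟨y, hy, hyG⟩ := hden2.exists_mem_open hGo hGne
  obtain ⟨⟨m, rfl⟩, hm⟩ := hy
  have hNm : N ≤ m := by
    by_contra hn
    push Not at hn
    exact hm (Finset.mem_coe.2 (Finset.mem_image.2 ⟨m, Finset.mem_range.2 hn, rfl⟩))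
  refine ⟨m, hNm, ?_⟩
  have hpos : 0 < a ^ m := by positivity
  have hval : ∀ j : ℕ, f ((R ^ j) (((a • R) ^ m) x)) = a ^ m * p (fun k => f ((T ^ k) x)) (m + j) b := by
    intro j
    rw [← eval_orbit T f b (m + j) x, ← hR, _root_.smul_pow, _root_.smul_apply, map_smul,
      map_smul, smul_eq_mul, add_comm m j, pow_add]
    rfl
  obtain ⟨⟨g1, g2⟩, g3, ⟨g4, g5⟩, g6⟩ := hyG
  simp only [hval] at g1 g2 g3 g4 g5 g6
  rw [add_zero] at g1 g2
  set c : ℕ → ℝ := fun k => f ((T ^ k) x) with hcdef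
  rw [abs_mul, abs_of_pos hpos] at g3 g6
  refine ⟨⟨hb, ?_, ?_, ?_, ?_, ?_⟩, ha, g1, g2⟩
  · exact pos_of_mul_pos_right (by linarith) hpos.le
  · have : a ^ m * |p c (m + 1) b| < a ^ m * (e * p c m b) := by
      calc a ^ m * |p c (m + 1) b| < e * 1 := by rw [mul_one]; exact g3
        _ ≤ e * (a ^ m * p c m b) := by gcongr
        _ = a ^ m * (e * p c m b) := by ring
    exact lt_of_mul_lt_mul_left this hpos.le
  · have : a ^ m * p c m b < a ^ m * (2 * p c (m + 2) b) := by linarith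
    exact lt_of_mul_lt_mul_left this hpos.le
  · have : a ^ m * p c (m + 2) b < a ^ m * (2 * p c m b) := by linarith
    exact lt_of_mul_lt_mul_left this hpos.le
  · have : a ^ m * |p c (m + 3) b| < a ^ m * (2 * p c m b) := by linarith
    exact lt_of_mul_lt_mul_left this hpos.le

end Pool.Agent.Q301.HC
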