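import Pool.Agent.Q301.HC.Appell
import Pool.Agent.Q301.HC.Area
set_option autoImplicit false

/-! The measure estimate. -/

namespace Pool.Agent.Q301.HC

open Polynomial Set Filter Topology MeasureTheory
open scoped ENNReal

/-- value of the Appell polynomial -/
noncomputable def p (c : ℕ → ℝ) (n : ℕ) (x : ℝ) : ℝ := (P c n).eval x

lemma p_cont (c : ℕ → ℝ) (n : ℕ) : Continuous (p c n) := (P c n).continuous

lemma p_deriv (c : ℕ → ℝ) (n : ℕ) (x : ℝ) :
    HasDerivAt (p c (n + 1)) (((n : ℝ) + 1) * p c n x) x := by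
  have := (P c (n + 1)).hasDerivAt x
  rw [derivative_P, eval_mul, eval_C] at this
  exact this

lemma p_shift (c : ℕ → ℝ) (n : ℕ) (s x : ℝ) :
    p (fun k => c k + s * c (k + 1)) n x = p c n x + s * (p c (n + 1) x - x * p c n x) := by
  unfold p
  rw [P_add, P_succ c n, eval_add, eval_add, eval_mul, eval_mul, eval_C, eval_X]
  ring

/-- the good set of the second parameter -/
def A (c : ℕ → ℝ) (e : ℝ) (m : ℕ) : Set ℝ :=
  {x | (0 < x ∧ x < 1) ∧ 0 < p c m x ∧ |p c (m + 1) x| < e * p c m x ∧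
    p c m x < 2 * p c (m + 2) x ∧ p c (m + 2) x < 2 * p c m x ∧ |p c (m + 3) x| < 2 * p c m x}

lemma A_open (c : ℕ → ℝ) (e : ℝ) (m : ℕ) : IsOpen (A c e m) := by
  have h := p_cont c
  refine IsOpen.and ((isOpen_lt continuous_const continuous_id).and
    (isOpen_lt continuous_id continuous_const)) ?_
  refine IsOpen.and (isOpen_lt continuous_const (h m)) ?_
  refine IsOpen.and (isOpen_lt (h _).abs (continuous_const.mul (h m))) ?_
  refine IsOpen.and (isOpen_lt (h m) (continuous_const.mul (h _))) ?_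
  exact IsOpen.and (isOpen_lt (h _) (continuous_const.mul (h m)))
    (isOpen_lt (h _).abs (continuous_const.mul (h m)))

/-- the parameter for which a point is a zero -/
noncomputable def sf (c : ℕ → ℝ) (m : ℕ) (x : ℝ) : ℝ :=
  -p c (m + 1) x / (p c (m + 2) x - x * p c (m + 1) x)

lemma D_bounds {c : ℕ → ℝ} {e : ℝ} {m : ℕ} (he : e ≤ 1 / 4) {x : ℝ} (hx : x ∈ A c e m) :
    p c m x / 4 < p c (m + 2) x - x * p c (m + 1) x ∧
      p c (m + 2) x - x * p c (m + 1) x < 3 * p c m x := by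
  obtain ⟨⟨h0, h1⟩, h2, h3, h4, h5, h6⟩ := hx
  have h7 := abs_lt.1 h3
  have h8 : e * p c m x ≤ 1 / 4 * p c m x := by gcongr
  have h9 : |x * p c (m + 1) x| ≤ 1 * (1 / 4 * p c m x) := by
    rw [abs_mul, abs_of_pos h0]
    exact mul_le_mul h1.le (by linarith) (abs_nonneg _) zero_le_one
  have h10 := abs_le.1 h9
  constructor <;> linarith [h10.1, h10.2]

lemma sf_deriv {c : ℕ → ℝ} {e : ℝ} {m : ℕ} (he : e ≤ 1 / 4) {x : ℝ} (hx : x ∈ A c e m) :
    HasDerivAt (sf c m) (-((m : ℝ) + 1) * (p c m x * p c (m + 2) x - p c (m + 1) x ^ 2) /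
      (p c (m + 2) x - x * p c (m + 1) x) ^ 2) x := by
  have hD := (D_bounds he hx).1
  have hu := hx.2.1
  have hDne : p c (m + 2) x - x * p c (m + 1) x ≠ 0 := by
    have : 0 < p c m x / 4 := by positivity
    linarith
  have h1 := p_deriv c m x
  have h2 := p_deriv c (m + 1) x
  have h3 := (h1.neg).div (h2.sub ((hasDerivAt_id x).mul h1)) hDne
  refine (h3.congr_deriv ?_)
  simp only [id, one_mul]
  congr 1
  push_cast
  simp only [Pi.neg_apply, Pi.sub_apply, Pi.mul_apply, id]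
  ring

lemma sf_deriv_le {c : ℕ → ℝ} {e : ℝ} {m : ℕ} (he : e ≤ 1 / 4) {x : ℝ}
    (hx : x ∈ A c e m) :
    -((m : ℝ) + 1) * (p c m x * p c (m + 2) x - p c (m + 1) x ^ 2) /
      (p c (m + 2) x - x * p c (m + 1) x) ^ 2 ≤ -(((m : ℝ) + 1) / 36) := by
  obtain ⟨hD1, hD2⟩ := D_bounds he hx
  obtain ⟨⟨h0, h1⟩, h2, h3, h4, h5, h6⟩ := hx
  set u := p c m x with hu
  set v := p c (m + 1) x with hv
  set w := p c (m + 2) x with hw
  set D := w - x * v with hDd
  have hDp : 0 < D := by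
    have : 0 < u / 4 := by positivity
    linarith
  have hv2 : v ^ 2 ≤ (1 / 4 * u) ^ 2 := by
    rw [← sq_abs]
    have : e * u ≤ 1 / 4 * u := by gcongr
    exact pow_le_pow_left₀ (abs_nonneg _) (by linarith) 2
  have hD2' : D ^ 2 ≤ (3 * u) ^ 2 := pow_le_pow_left₀ hDp.le hD2.le 2
  have huw : u * (u / 2) ≤ u * w := by gcongr; linarith
  have hkey : D ^ 2 / 36 ≤ u * w - v ^ 2 := by nlinarith
  rw [neg_mul, neg_div, neg_le_neg_iff, mul_div_assoc, div_eq_mul_inv ((m : ℝ) + 1) 36]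
  refine mul_le_mul_of_nonneg_left ?_ (by positivity)
  rw [le_div_iff₀ (by positivity)]
  linarith

lemma sf_lt {c : ℕ → ℝ} {e d : ℝ} {m : ℕ} (hd : 4 * e ≤ d) (he : e ≤ 1 / 4) {x : ℝ}
    (hx : x ∈ A c e m) : |sf c m x| < d := by
  have hD1 := (D_bounds he hx).1
  obtain ⟨⟨h0, h1⟩, h2, h3, h4, h5, h6⟩ := hx
  have hDp : 0 < p c (m + 2) x - x * p c (m + 1) x := by
    have : 0 < p c m x / 4 := by positivity
    linarith
  unfold sf
  rw [abs_div, abs_neg, abs_of_pos hDp, div_lt_iff₀ hDp]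
  have he0 : 0 ≤ e := by
    by_contra hn
    push Not at hn
    have := mul_neg_of_neg_of_pos hn h2
    linarith [abs_nonneg (p c (m + 1) x)]
  have : e * p c m x ≤ d * (p c (m + 2) x - x * p c (m + 1) x) := by
    calc e * p c m x = 4 * e * (p c m x / 4) := by ring
      _ ≤ d * (p c (m + 2) x - x * p c (m + 1) x) :=
        mul_le_mul hd hD1.le (by positivity) (by linarith)
  linarith

lemma sf_crit {c : ℕ → ℝ} {e d : ℝ} {m : ℕ} (hd : 4 * e ≤ d) (hd8 : d ≤ 1 / 8) {x : ℝ}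
    (hx : x ∈ A c e m) : x ∈ crit (fun k => c k + sf c m x * c (k + 1)) (m + 1) := by
  have he : e ≤ 1 / 4 := by linarith
  have hs := sf_lt hd he hx
  have hD1 := (D_bounds he hx).1
  obtain ⟨⟨h0, h1⟩, h2, h3, h4, h5, h6⟩ := hx
  have hDp : 0 < p c (m + 2) x - x * p c (m + 1) x := by
    have : 0 < p c m x / 4 := by positivity
    linarith
  set s := sf c m x with hsd
  have hs8 : |s| ≤ 1 / 8 := by linarith
  have heu : e * p c m x ≤ 1 / 4 * p c m x := by gcongr
  refine ⟨⟨h0, h1⟩, ?_, ?_⟩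
  · show p (fun k => c k + s * c (k + 1)) (m + 1) x = 0
    rw [p_shift, hsd]
    unfold sf
    rw [div_mul_cancel₀ _ hDp.ne']
    ring
  · show 0 < p (fun k => c k + s * c (k + 1)) (m + 1 + 1) x *
      p (fun k => c k + s * c (k + 1)) (m + 1 - 1) x
    rw [p_shift, p_shift, show m + 1 - 1 = m by omega]
    show 0 < (p c (m + 2) x + s * (p c (m + 3) x - x * p c (m + 2) x)) *
      (p c m x + s * (p c (m + 1) x - x * p c m x))
    have hw : 0 < p c (m + 2) x := by linarith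
    have k1 : |s * (p c (m + 3) x - x * p c (m + 2) x)| ≤ 1 / 8 * (4 * p c m x) := by
      rw [abs_mul]
      refine mul_le_mul hs8 ?_ (abs_nonneg _) (by norm_num)
      refine (abs_sub _ _).trans ?_
      rw [abs_mul, abs_of_pos h0, abs_of_pos hw]
      have : x * p c (m + 2) x ≤ 1 * (2 * p c m x) := mul_le_mul h1.le h5.le hw.le zero_le_one
      linarith
    have k2 : |s * (p c (m + 1) x - x * p c m x)| ≤ 1 / 8 * (2 * p c m x) := by
      rw [abs_mul]
      refine mul_le_mul hs8 ?_ (abs_nonneg _) (by norm_num)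
      refine (abs_sub _ _).trans ?_
      rw [abs_mul, abs_of_pos h0, abs_of_pos h2]
      have : x * p c m x ≤ 1 * p c m x := mul_le_mul h1.le le_rfl h2.le zero_le_one
      linarith
    have k3 := (abs_le.1 k1).1
    have k4 := (abs_le.1 k2).1
    exact mul_pos (by linarith) (by linarith)

end Pool.Agent.Q301.HC
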